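import Pool.Agent.H19.KL.Stmts2

/-!
# Project KL, module KPI: the integral of `φ'(s) / s`
-/

set_option autoImplicit false

open MeasureTheory Set
open scoped ContDiff

namespace Pool.Agent.H19.KL

open Pool.Agent.H84 Pool.Agent.H84.Sym Pool.Agent.H84.Sym.P2x Pool.Agent.H84.Sym.C29
open Pool.Agent.H73.Lp

section

variable {E : Type} [NormedAddCommGroup E] [InnerProductSpace ℝ E]
    [FiniteDimensional ℝ E] [MeasurableSpace E] [BorelSpace E] {p q δ : ℝ}

private theorem kpi_ae_ne {v : E} (hv : v ≠ 0) :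
    ∀ᵐ x ∂(volume : Measure E), (inner ℝ v x : ℝ) ≠ 0 := by
  have h1 : (LinearMap.ker (innerₛₗ ℝ v)) ≠ ⊤ := by
    intro h
    have h2 : v ∈ LinearMap.ker (innerₛₗ ℝ v) := by rw [h]; trivial
    have h3 : (inner ℝ v v : ℝ) = 0 := h2
    exact hv (inner_self_eq_zero.1 h3)
  have h2 := Measure.addHaar_submodule (volume : Measure E) _ h1
  rw [ae_iff]
  convert h2 using 2
  ext x
  simp

private theorem kpi_abs (φ : ℝ → ℝ) (s : ℝ) : kap φ |s| = kap φ s := by
  unfold kap
  rw [abs_abs]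

private theorem kpi_le {φ : ℝ → ℝ} (hφ : Orl p q φ) {m s : ℝ} (hm : 0 < m) (hs : 0 < s) :
    kap φ s ≤ kap φ m * ((s / m) ^ (q - 2) + (s / m) ^ (p - 2)) := by
  have hkm := hφ.kap_pos hm.ne'
  have hsm : 0 < s / m := div_pos hs hm
  have e1 : ∀ e : ℝ, (s / m) ^ (e - 2) = m ^ (2 - e) * (s ^ (2 - e))⁻¹ := by
    intro e
    rw [Real.div_rpow hs.le hm.le, show e - 2 = -(2 - e) by ring, Real.rpow_neg hs.le,
      Real.rpow_neg hm.le]
    field_simp
  have p1 : 0 < (s / m) ^ (q - 2) := Real.rpow_pos_of_pos hsm _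
  have p2 : 0 < (s / m) ^ (p - 2) := Real.rpow_pos_of_pos hsm _
  rcases le_total m s with h | h
  · have h1 := hφ.kap_up hm h
    have h2 : kap φ s ≤ kap φ m * (s / m) ^ (q - 2) := by
      rw [e1 q, ← mul_assoc, ← div_eq_mul_inv, le_div_iff₀ (Real.rpow_pos_of_pos hs _)]
      exact h1
    nlinarith [mul_pos hkm p2]
  · have h1 := hφ.kap_low hs h
    have h2 : kap φ s ≤ kap φ m * (s / m) ^ (p - 2) := by
      rw [e1 p, ← mul_assoc, ← div_eq_mul_inv, le_div_iff₀ (Real.rpow_pos_of_pos hs _)]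
      exact h1
    nlinarith [mul_pos hkm p1]

private theorem kpi_meas {φ : ℝ → ℝ} (hφ : Orl p q φ) (v : E) :
    Measurable (fun x : E => kap φ (inner ℝ v x)) := by
  have h1 : Continuous (deriv φ) := hφ.c1.continuous_deriv le_rfl
  have h2 : Continuous (fun x : E => |(inner ℝ v x : ℝ)|) :=
    (continuous_const.inner continuous_id).abs
  unfold kap
  exact ((h1.comp h2).measurable).div h2.measurable

private theorem kpi_nonneg {φ : ℝ → ℝ} (hφ : Orl p q φ) (s : ℝ) : 0 ≤ kap φ s := by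
  by_cases h : s = 0
  · subst h
    simp [kap]
  · exact (hφ.kap_pos h).le

private theorem kpi_pos_int {K : Set E} {R : ℝ} (hK : CB K R) {f : E → ℝ} (hf0 : ∀ x, 0 ≤ f x)
    (hf : ∀ᵐ x ∂(volume : Measure E), f x ≠ 0) (hi : IntegrableOn f K) :
    0 < ∫ x in K, f x := by
  rw [setIntegral_pos_iff_support_of_nonneg_ae (Filter.Eventually.of_forall hf0) hi]
  have h1 : volume (Function.support f ∩ K) = volume K := by
    have : (Function.support f ∩ K : Set E) =ᵐ[volume] K := by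
      filter_upwards [hf] with x hx
      have : (x ∈ Function.support f ∩ K) = (x ∈ K) := by
        simp [Function.mem_support, hx]
      exact this
    exact measure_congr this
  rw [h1]
  exact pos_iff_ne_zero.2 hK.vol0

end

theorem kpi_thm (E : Type) [NormedAddCommGroup E] [InnerProductSpace ℝ E]
    [FiniteDimensional ℝ E] [MeasurableSpace E] [BorelSpace E] (h1 : MOKStmt E) : KPIStmt E := by
  intro K R v φ p q hK hsymm hv hφ hp hp2 hq
  have hm := m1_pos hK hv
  have hV : 0 ≤ volume.real K := measureReal_nonneg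
  obtain ⟨i1, b1⟩ := h1 K R v hK hsymm hv (q - 2) (by linarith)
  obtain ⟨hi, hb⟩ := moment_neg hK hsymm hv (a := 2 - p) (by linarith) (by linarith)
  rw [neg_sub] at hi hb
  have hme : 0 < m1 K v ^ (p - 2) := Real.rpow_pos_of_pos hm _
  have hrew : (fun x : E => (|inner ℝ v x| / m1 K v) ^ (p - 2)) =
      fun x => |inner ℝ v x| ^ (p - 2) * (m1 K v ^ (p - 2))⁻¹ := by
    funext x
    rw [Real.div_rpow (abs_nonneg _) hm.le, div_eq_mul_inv]
  have i2 : IntegrableOn (fun x : E => (|inner ℝ v x| / m1 K v) ^ (p - 2)) K := by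
    rw [hrew]
    exact hi.mul_const _
  have b2 : ∫ x in K, (|inner ℝ v x| / m1 K v) ^ (p - 2) ≤ 1 / (p - 1) * volume.real K := by
    rw [hrew, integral_mul_const]
    have h2 : (∫ x in K, |inner ℝ v x| ^ (p - 2)) * (m1 K v ^ (p - 2))⁻¹ ≤
        ((1 - (2 - p))⁻¹ * m1 K v ^ (p - 2) * volume.real K) * (m1 K v ^ (p - 2))⁻¹ :=
      mul_le_mul_of_nonneg_right hb (inv_nonneg.2 hme.le)
    have h3 : ((1 - (2 - p))⁻¹ * m1 K v ^ (p - 2) * volume.real K) * (m1 K v ^ (p - 2))⁻¹ =
        1 / (p - 1) * volume.real K := by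
      have e1 : (1 - (2 - p)) = p - 1 := by ring
      rw [e1]
      have : p - 1 ≠ 0 := by linarith
      field_simp
    linarith
  have hle : ∀ᵐ x ∂(volume.restrict K), kap φ (inner ℝ v x) ≤
      kap φ (m1 K v) * ((|inner ℝ v x| / m1 K v) ^ (q - 2) +
        (|inner ℝ v x| / m1 K v) ^ (p - 2)) := by
    filter_upwards [ae_restrict_of_ae (kpi_ae_ne hv)] with x hx
    rw [← kpi_abs]
    exact kpi_le hφ hm (abs_pos.2 hx)
  have i1' : IntegrableOn (fun x : E => (|inner ℝ v x| / m1 K v) ^ (q - 2)) K := i1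
  have b1' : ∫ x in K, (|inner ℝ v x| / m1 K v) ^ (q - 2) ≤ momC (q - 2) * volume.real K := b1
  have hint := ((i1'.add i2).const_mul (kap φ (m1 K v)))
  have hI : IntegrableOn (fun x => kap φ (inner ℝ v x)) K := by
    refine Integrable.mono' hint (kpi_meas hφ v).aestronglyMeasurable ?_
    filter_upwards [hle] with x hx
    rw [Real.norm_of_nonneg (kpi_nonneg hφ _)]
    exact hx
  refine ⟨hI, kpi_pos_int hK (fun x => kpi_nonneg hφ _) ?_ hI,
    (integral_mono_ae hI hint hle).trans ?_⟩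
  · filter_upwards [kpi_ae_ne hv] with x hx using (hφ.kap_pos hx).ne'
  have : ∫ x in K, kap φ (m1 K v) * ((fun x => (|inner ℝ v x| / m1 K v) ^ (q - 2)) +
      (fun x => (|inner ℝ v x| / m1 K v) ^ (p - 2))) x =
      kap φ (m1 K v) * ((∫ x in K, (|inner ℝ v x| / m1 K v) ^ (q - 2)) +
        ∫ x in K, (|inner ℝ v x| / m1 K v) ^ (p - 2)) := by
    rw [integral_const_mul, integral_add' i1' i2]
  rw [this]
  refine mul_le_mul_of_nonneg_left ?_ (kpi_nonneg hφ _)
  have h3 : (1 / (p - 1) + momC (q - 2)) * volume.real K =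
      1 / (p - 1) * volume.real K + momC (q - 2) * volume.real K := by
    ring
  linarith

end Pool.Agent.H19.KL
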