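import Pool.Agent.H19.KL.Stmts2

/-!
# Project KL, module MGG: moments of `(d / q) (1 - Φ)`
-/

set_option autoImplicit false

open MeasureTheory Set
open scoped ContDiff Pointwise

namespace Pool.Agent.H19.KL

open Pool.Agent.H84 Pool.Agent.H84.Sym Pool.Agent.H84.Sym.P2x Pool.Agent.H84.Sym.C29
open Pool.Agent.H73.Lp

private lemma mgg_gamma {c : ℝ} (hc : 0 < c) :
    IntegrableOn (fun t : ℝ => t ^ ((8:ℝ) - 1) * Real.exp (-(c * t))) (Ioi 0) ∧
      ∫ t in Ioi (0:ℝ), t ^ ((8:ℝ) - 1) * Real.exp (-(c * t)) = 5040 / c ^ 8 := by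
  have h := Real.integral_rpow_mul_exp_neg_mul_Ioi (a := 8) (r := c) (by norm_num) hc
  have hG : Real.Gamma 8 = 5040 := by
    have h7 := Real.Gamma_nat_eq_factorial 7
    rw [show (((7:ℕ):ℝ) + 1) = 8 by norm_num] at h7
    rw [h7]
    norm_num [Nat.factorial]
  have e : (1 / c) ^ (8:ℝ) = 1 / c ^ 8 := by
    rw [show (8:ℝ) = ((8:ℕ):ℝ) by norm_num, Real.rpow_natCast]
    rw [div_pow, one_pow]
  rw [hG, e] at h
  have h2 : ∫ t in Ioi (0:ℝ), t ^ ((8:ℝ) - 1) * Real.exp (-(c * t)) = 5040 / c ^ 8 := by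
    rw [h]; ring
  refine ⟨?_, h2⟩
  by_contra hcon
  have h3 := integral_undef hcon
  rw [h2] at h3
  have : 0 < 5040 / c ^ 8 := by positivity
  linarith

theorem mgg_thm (E : Type) [NormedAddCommGroup E] [InnerProductSpace ℝ E]
    [FiniteDimensional ℝ E] [MeasurableSpace E] [BorelSpace E] : MGGStmt E := by
  intro ι _ v φ p q hφ hp hpq hv
  have hq : 0 < q := by linarith
  obtain ⟨R, hR0, hK⟩ := KK_CB hφ hp hpq hv
  have hbd := KK_bounded hφ hp hpq hv
  have hKfin : volume (KK v φ) < ⊤ := hbd.measure_lt_top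
  have hV : 0 ≤ volume.real (KK v φ) := measureReal_nonneg
  rcases (Module.finrank ℝ E).eq_zero_or_pos with hd | hd
  · rw [hd]
    simp only [Nat.cast_zero, zero_div, zero_mul]
    norm_num
  obtain ⟨c, hcdef⟩ : ∃ c : ℝ, c = Module.finrank ℝ E / q := ⟨_, rfl⟩
  have hd' : (0:ℝ) < Module.finrank ℝ E := by exact_mod_cast hd
  have hc : 0 < c := by rw [hcdef]; positivity
  rw [← hcdef]
  obtain ⟨F, hF⟩ : ∃ F : E → ℝ, F = fun x => max (1 - Ph v φ x) 0 := ⟨_, rfl⟩
  have hFc : Continuous F := by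
    rw [hF]
    exact (continuous_const.sub (Ph_continuous hφ)).max continuous_const
  have hF0 : ∀ x, 0 ≤ F x := by intro x; rw [hF]; exact le_max_right _ _
  have hF1 : ∀ x, F x ≤ 1 := by
    intro x
    rw [hF]
    have := Ph_nonneg hφ hp x (v := v)
    exact max_le (by linarith) zero_le_one
  have hFK : ∀ x ∈ KK v φ, 1 - Ph v φ x = F x := by
    intro x hx
    have hx' : Ph v φ x < 1 := hx
    rw [hF]
    simp only
    rw [max_eq_left (by linarith)]
  have e1 : ∫ x in KK v φ, (c * (1 - Ph v φ x)) ^ 8 = c ^ 8 * ∫ x in KK v φ, F x ^ 8 := by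
    rw [← integral_const_mul]
    apply setIntegral_congr_fun (KK_isOpen hφ).measurableSet
    intro x hx
    simp only
    rw [hFK x hx, mul_pow]
  rw [e1]
  -- level sets
  have hlev : ∀ t : ℝ, 0 < t → (volume.restrict (KK v φ)) {x | t < F x} ≤
      ENNReal.ofReal (Real.exp (-(c * t)) * volume.real (KK v φ)) := by
    intro t ht
    by_cases ht1 : 1 ≤ t
    · have : {x | t < F x} = (∅ : Set E) := by
        ext x
        simp only [mem_ofPred_eq, mem_empty_iff_false, iff_false, not_lt]
        exact (hF1 x).trans ht1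
      rw [this, measure_empty]
      exact bot_le
    · push Not at ht1
      have hr : 0 < 1 - t := by linarith
      have hs : 0 < (1 - t) ^ (1 / q) := Real.rpow_pos_of_pos hr _
      have hs1 : (1 - t) ^ (1 / q) ≤ 1 := Real.rpow_le_one hr.le (by linarith) (by positivity)
      have hsub : {x | t < F x} ⊆ ((1 - t) ^ (1 / q)) • KK v φ := by
        intro x hx
        have hx1 : t < F x := hx
        rw [hF] at hx1
        simp only at hx1
        have hx2 : Ph v φ x < 1 - t := by
          rcases lt_max_iff.1 hx1 with h | h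
          · linarith
          · linarith
        rw [mem_smul_set_iff_inv_smul_mem₀ hs.ne']
        have h1 := Ph_scale_ge hφ hp hpq hs.le hs1 (((1 - t) ^ (1 / q))⁻¹ • x) (v := v)
        rw [smul_inv_smul₀ hs.ne', ← Real.rpow_mul hr.le, one_div_mul_cancel hq.ne',
          Real.rpow_one] at h1
        show Ph v φ _ < 1
        by_contra hc
        have := mul_le_mul_of_nonneg_left (not_lt.1 hc) hr.le
        linarith
      refine (Measure.restrict_apply_le _ _).trans ((measure_mono hsub).trans ?_)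
      rw [Measure.addHaar_smul, ← ENNReal.ofReal_toReal hKfin.ne, ← ENNReal.ofReal_mul (abs_nonneg _)]
      apply ENNReal.ofReal_le_ofReal
      rw [abs_of_nonneg (pow_nonneg hs.le _)]
      refine mul_le_mul_of_nonneg_right ?_ ENNReal.toReal_nonneg
      rw [← Real.rpow_natCast, ← Real.rpow_mul hr.le]
      have e2 : 1 / q * (Module.finrank ℝ E : ℝ) = c := by rw [hcdef]; ring
      rw [e2]
      have h3 : 1 - t ≤ Real.exp (-t) := by
        have := Real.add_one_le_exp (-t)
        linarith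
      calc (1 - t) ^ c ≤ (Real.exp (-t)) ^ c := Real.rpow_le_rpow hr.le h3 hc.le
        _ = Real.exp (-(c * t)) := by rw [← Real.exp_mul]; congr 1; ring
  obtain ⟨hint, hval⟩ := mgg_gamma hc
  have hfin : IsFiniteMeasure (volume.restrict (KK v φ)) := ⟨by
    rw [Measure.restrict_apply_univ]; exact hKfin⟩
  have hFi : Integrable (fun x => F x ^ 8) (volume.restrict (KK v φ)) := by
    refine Integrable.mono' (integrable_const (1:ℝ)) (hFc.pow 8).aestronglyMeasurable ?_
    filter_upwards with x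
    rw [Real.norm_of_nonneg (pow_nonneg (hF0 x) 8)]
    exact pow_le_one₀ (hF0 x) (hF1 x)
  have hmain : ENNReal.ofReal (∫ x in KK v φ, F x ^ 8) ≤
      ENNReal.ofReal (8 * (5040 / c ^ 8 * volume.real (KK v φ))) := by
    rw [ofReal_integral_eq_lintegral_ofReal hFi
      (Filter.Eventually.of_forall fun x => pow_nonneg (hF0 x) 8)]
    have h8 : ∀ x, F x ^ 8 = F x ^ (8:ℝ) := by
      intro x
      rw [show (8:ℝ) = ((8:ℕ):ℝ) by norm_num, Real.rpow_natCast]
    simp_rw [h8]
    rw [lintegral_rpow_eq_lintegral_meas_lt_mul _ (Filter.Eventually.of_forall hF0)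
      hFc.aemeasurable (by norm_num : (0:ℝ) < 8), ENNReal.ofReal_mul (by norm_num : (0:ℝ) ≤ 8)]
    refine mul_le_mul_right ?_ _
    rw [← hval, ← integral_mul_const, ofReal_integral_eq_lintegral_ofReal (hint.mul_const _)]
    · refine setLIntegral_mono' measurableSet_Ioi fun t ht => ?_
      have ht' : (0:ℝ) < t := ht
      have hp7 : 0 ≤ t ^ ((8:ℝ) - 1) := Real.rpow_nonneg ht'.le _
      calc (volume.restrict (KK v φ)) {x | t < F x} * ENNReal.ofReal (t ^ ((8:ℝ) - 1))
          ≤ ENNReal.ofReal (Real.exp (-(c * t)) * volume.real (KK v φ)) *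
            ENNReal.ofReal (t ^ ((8:ℝ) - 1)) := mul_le_mul_left (hlev t ht') _
        _ = ENNReal.ofReal (t ^ ((8:ℝ) - 1) * Real.exp (-(c * t)) * volume.real (KK v φ)) := by
            rw [← ENNReal.ofReal_mul (by positivity)]
            congr 1
            ring
    · filter_upwards [ae_restrict_mem measurableSet_Ioi] with t ht
      have ht' : (0:ℝ) < t := ht
      have hp7 : 0 ≤ t ^ ((8:ℝ) - 1) := Real.rpow_nonneg ht'.le _
      show 0 ≤ t ^ ((8:ℝ) - 1) * Real.exp (-(c * t)) * volume.real (KK v φ)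
      positivity
  rw [ENNReal.ofReal_le_ofReal_iff (by positivity)] at hmain
  calc c ^ 8 * ∫ x in KK v φ, F x ^ 8
      ≤ c ^ 8 * (8 * (5040 / c ^ 8 * volume.real (KK v φ))) :=
        mul_le_mul_of_nonneg_left hmain (by positivity)
    _ = 40320 * volume.real (KK v φ) := by
        field_simp
        ring

end Pool.Agent.H19.KL
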